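import Pool.Agent.Q23.HS.Bord

/-!
# The determinant of `(j+k/p) - (j-k/p) + (j/p) y + (k/p) z` for `p = 1 mod 4`

The determinant is `-y z` times the determinant of the matrix of the differences, times `b^T A b / p`,
and `b^T A b` is a multiple of four.
-/

set_option autoImplicit false

namespace Pool.Agent.Results.MP_c81705_nt.MixedDifferences

/-- `E_p`, evaluated at elements `y z` of a commutative ring `R`: the determinant of the matrix
with the entries `((j+k)/p) - ((j-k)/p) + (j/p) y + (k/p) z`, `0 ≤ j, k ≤ (p - 1) / 2`. -/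
def E (p : ℕ) [Fact p.Prime] {R : Type*} [CommRing R] (y z : R) : R :=
  Matrix.det (Matrix.of fun j k : Fin ((p - 1) / 2 + 1) =>
    (legendreSym p (((j : ℕ) : ℤ) + ((k : ℕ) : ℤ)) : R)
      - (legendreSym p (((j : ℕ) : ℤ) - ((k : ℕ) : ℤ)) : R)
      + (legendreSym p ((j : ℕ) : ℤ) : R) * y
      + (legendreSym p ((k : ℕ) : ℤ) : R) * z)

/-- **Main result.**  The answer to Q2: for `p = 1 mod 4` there is an integer `c` with
`E_p = 4 p^((p-5)/4) c y z`. -/
theorem result : ∀ (p : ℕ) [Fact p.Prime], p % 4 = 1 →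
    ∃ c : ℤ, ∀ {R : Type*} [CommRing R] (y z : R),
      E p y z = 4 * (p : R) ^ ((p - 5) / 4) * (c : R) * (y * z) := by
  intro p _ h4
  set n := (p - 1) / 2 with hn
  have hp : p = 2 * n + 1 := by omega
  have h1 : Pool.Agent.Q23.LD.ch p (-1) = 1 := Pool.Agent.Q23.LD.ch_neg_one h4
  obtain ⟨m, hm, c, hd⟩ := Pool.Agent.Q23.HS.det_EE2 hp h1
  refine ⟨c, ?_⟩
  intro R _ y z
  have hE : E p y z = (Pool.Agent.Q23.HS.EE2 p n y z).det := by
    rw [E]
    congr 1
    ext j k
    rw [Matrix.of_apply, Pool.Agent.Q23.HS.EE2, Matrix.of_apply]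
    simp only [legendreSym, Pool.Agent.Q23.LD.ch]
    push_cast
    rfl
  rw [hE, hd]
  congr 4
  omega

end Pool.Agent.Results.MP_c81705_nt.MixedDifferences
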