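import Pool.Agent.Q23.CN.Cor
import Pool.Agent.Q23.HS.Bord3

/-!
# The determinant `D_p` over `0 ≤ j, k ≤ (p - 1) / 2`
-/

set_option autoImplicit false

namespace Pool.Agent.Results.MP_c81705_nt.MixedSums

open NumberField

/-- `D_p`, evaluated at elements `x y z w` of a commutative ring `R`: the determinant of the matrix
with the entries `x + ((j+k)/p) + ((j-k)/p) + (j/p) y + (k/p) z + (jk/p) w`,
`0 ≤ j, k ≤ (p - 1) / 2`. -/
def D (p : ℕ) [Fact p.Prime] {R : Type*} [CommRing R] (x y z w : R) : R :=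
  Matrix.det (Matrix.of fun j k : Fin ((p - 1) / 2 + 1) =>
    x + (legendreSym p (((j : ℕ) : ℤ) + ((k : ℕ) : ℤ)) : R)
      + (legendreSym p (((j : ℕ) : ℤ) - ((k : ℕ) : ℤ)) : R)
      + (legendreSym p ((j : ℕ) : ℤ) : R) * y
      + (legendreSym p ((k : ℕ) : ℤ) : R) * z
      + (legendreSym p (((j : ℕ) : ℤ) * ((k : ℕ) : ℤ)) : R) * w)

lemma D_eq {p n : ℕ} [Fact p.Prime] (hp : p = 2 * n + 1) {R : Type*} [CommRing R] (x y z w : R) :
    D p x y z w = (Pool.Agent.Q23.HS.EE4 p n x y z w).det := by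
  have hn : (p - 1) / 2 = n := by omega
  subst hn
  rw [D]
  congr 1
  ext j k
  rw [Matrix.of_apply, Pool.Agent.Q23.HS.EE4, Matrix.of_apply]
  simp only [legendreSym, Pool.Agent.Q23.LD.ch]
  push_cast
  rfl

/-- **Main result.**  The answer to Q1.  Here `K` is any number field of degree two with a square
root of `-p`, that is `ℚ(√-p)`. -/
theorem result :
    (∀ (p : ℕ) [Fact p.Prime], p % 4 = 1 → ∀ {R : Type*} [CommRing R] (x y z w : R),
      D p x y z w = (legendreSym p 2 : R) * (p : R) ^ ((p + 3) / 4) * x) ∧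
    (∀ (p : ℕ) [Fact p.Prime], 3 < p → p % 4 = 3 →
      ∀ (K : Type) [Field K] [NumberField K], Module.finrank ℚ K = 2 →
      (∃ s : K, s ^ 2 = -(p : K)) →
      Odd (classNumber K) ∧
      ∀ {R : Type*} [CommRing R] (x y z w : R),
        D p x y z w = (-1) ^ ((classNumber K - 1) / 2) * (p : R) ^ ((p - 3) / 4) *
          ((p : R) * x + (2 - (legendreSym p 2 : R)) * (classNumber K : R)
            * ((y + 2) * z - w * x))) := by
  refine ⟨?_, ?_⟩
  · intro p _ h4 R _ x y z w
    set n := (p - 1) / 2 with hn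
    have hp : p = 2 * n + 1 := by omega
    have h2 : legendreSym p 2 = (-1) ^ ((p - 1) / 4) := by
      have := Pool.Agent.Q23.LD.ch_two (p := p) (h := (p - 1) / 4) (by omega)
      rw [← this]
      simp only [legendreSym, Pool.Agent.Q23.LD.ch]
      push_cast
      rfl
    rw [D_eq hp, Pool.Agent.Q23.HS.det_EE4_one hp h4, h2]
    push_cast
    rfl
  · intro p _ h3 h4 K _ _ hK ⟨s, hs⟩
    have h7 : 7 ≤ p := by omega
    set n := (p - 1) / 2 with hn
    have hp : p = 2 * n + 1 := by omega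
    obtain ⟨hodd, hP⟩ := Pool.Agent.Q23.CN.odd_class hp h4 h7 K hK s hs
    have hH := Pool.Agent.Q23.CN.HH_class hp h4 h7 K hK s hs
    refine ⟨hodd, ?_⟩
    intro R _ x y z w
    have h2 : legendreSym p 2 = Pool.Agent.Q23.LD.ch p 2 := by
      simp only [legendreSym, Pool.Agent.Q23.LD.ch]
      push_cast
      rfl
    rw [D_eq hp, Pool.Agent.Q23.HS.det_EE4_three hp h4, Pool.Agent.Q23.HS.det_SS_three hp h4, hP, hH, h2]
    obtain ⟨k, hk⟩ := hodd
    have e1 : (classNumber K + 1) / 2 = k + 1 := by omega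
    have e2 : (classNumber K - 1) / 2 = k := by omega
    have e3 : (n - 1) / 2 = (p - 3) / 4 := by omega
    rw [e1, e2, e3]
    push_cast
    ring

end Pool.Agent.Results.MP_c81705_nt.MixedSums
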